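import Pool.Agent.AdTorus.Main

set_option autoImplicit false

namespace Pool.Agent.Results.MP_15d1c0_an.TorusOrbits

open AdTorus Topology Filter RestrictedProduct MeasureTheory

/-- **Disproof of the conjectured alternative.** Take `F = ℚ` and the simply connected semisimple
group `G = D^1 × D^1`, `D^1` the group of norm one Hamilton quaternions. There are anisotropic
tori `T_i = {(t, t^{n_i}) : t ∈ T_{m_i}}`, `m_i = 2^(2^i)`, such that (with `g_i = 1`) the uniform
measures of the adelic torus subsets `[T_i(𝔸)]` have a weak-* limit which is a probability measure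
not invariant under `G(𝔸)`, and yet for every proper `ℚ`-subgroup `H` of `G` and every sequence
`h_i` in `G(𝔸)` (bounded or not) the inclusion `[T_i(𝔸)] ⊆ h_i [H(𝔸)]` holds for only finitely
many `i`. -/
theorem result :
    ∃ n : ℕ → ℕ, (∀ i, 0 < n i) ∧
      -- `T_i` is a one-dimensional torus: over `ℂ` it is `ℂˣ`, by Laurent polynomials
      (∀ i, ∃ e : ℂˣ ≃* torusPow (2 ^ 2 ^ i) (n i) ℂ, ∀ s : ℂˣ,
        ((e s : torusPow (2 ^ 2 ^ i) (n i) ℂ) : D1 ℂ × D1 ℂ) =
          (tau (2 ^ 2 ^ i) s, tau (2 ^ 2 ^ i) s ^ n i)) ∧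
      -- `T_i(𝔸)/T_i(ℚ)` is compact (`T_i` is anisotropic)
      (∀ i, CompactSpace (TQ (TA (2 ^ 2 ^ i) (n i)))) ∧
      -- alternative (1) fails
      (∃ ν : ℕ → Measure X, (∀ i, IsUniformMeasure (TA (2 ^ 2 ^ i) (n i)) 1 (ν i)) ∧
        ∃ μ : Measure X, IsProbabilityMeasure μ ∧ IsWeakLimit ν μ ∧
          ∃ g : GA, μ.map (fun x => g • x) ≠ μ) ∧
      -- alternative (2) fails
      (∀ S : Set (MvPolynomial (Fin 4 ⊕ Fin 4) ℚ), IsQSubgroup S → zeroSet S ℂ ≠ Set.univ →
        ∀ h : ℕ → GA, {i | orbitSet 1 (TA (2 ^ 2 ^ i) (n i)) ⊆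
          orbitSet (h i) (adelic fun R _ _ => zeroSet S R)}.Finite) :=
  AdTorus.main_result

end Pool.Agent.Results.MP_15d1c0_an.TorusOrbits
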